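import Pool.Agent.Lib_MP_a50277.Glue
import Pool.Agent.Lib_MP_a50277.PartB
import Pool.Agent.Lib_MP_a50277.C1

/-!
# MP_a50277_co: the relative form for all finite sets
-/

set_option autoImplicit false

namespace WW

open Module MvPolynomial

/-- disjointly supported relations of the evaluations are not skew -/
theorem relC_ev (hC : AffineC) (d : ℕ) (P : Finset (Projectivization ℝ (Fin 3 → ℝ))) :
    ∀ a b : P → ℝ, a ≠ 0 → b ≠ 0 → (∀ i, a i = 0 ∨ b i = 0) → ∑ p : P, a p • ev d p.1.rep = 0 →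
      ∑ p : P, b p • ev d p.1.rep = 0 → ∃ a' b' : P → ℝ, (∀ i, a i = 0 → a' i = 0) ∧
        (∀ i, b i = 0 → b' i = 0) ∧
        ∑ p : P, a' p • ev d p.1.rep = ∑ p : P, b' p • ev d p.1.rep ∧
        ∑ p : P, a' p • ev d p.1.rep ≠ 0 := by
  classical
  obtain ⟨α, β, γ, hα, hL⟩ := exists_chart P
  have hL' : ∀ p : P, α * p.1.rep 0 + β * p.1.rep 1 + γ * p.1.rep 2 ≠ 0 := fun p => hL p.1 p.2
  intro a b ha hb hab hra hrb
  have trans : ∀ c : P → ℝ, ∑ p : P, c p • ev d p.1.rep = 0 → ∀ k l, k + l ≤ d →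
      ∑ p : P, (c p * (α * p.1.rep 0 + β * p.1.rep 1 + γ * p.1.rep 2) ^ d) *
      ((p.1.rep 1 / (α * p.1.rep 0 + β * p.1.rep 1 + γ * p.1.rep 2)) ^ k *
      (p.1.rep 2 / (α * p.1.rep 0 + β * p.1.rep 1 + γ * p.1.rep 2)) ^ l) = 0 := by
    intro c hc k l hkl
    obtain ⟨F, hF⟩ := forms_rel (fun p : P => p.1.rep) hL' c k l hkl
    rw [hF, hc]
    rfl
  have nz : ∀ c : P → ℝ, c ≠ 0 →
      (fun p : P => c p * (α * p.1.rep 0 + β * p.1.rep 1 + γ * p.1.rep 2) ^ d) ≠ 0 := by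
    intro c hc h
    apply hc
    funext p
    have h1 := congrFun h p
    exact (mul_eq_zero.1 h1).resolve_right (pow_ne_zero _ (hL' p))
  obtain ⟨a', b', ha', hb', hab', k, l, hkl, hne⟩ := hC P
    (fun p => p.1.rep 1 / (α * p.1.rep 0 + β * p.1.rep 1 + γ * p.1.rep 2))
    (fun p => p.1.rep 2 / (α * p.1.rep 0 + β * p.1.rep 1 + γ * p.1.rep 2))
    (fun p q h1 h2 => Subtype.ext (chart_inj hα (hL' p) (hL' q) h1 h2)) d
    _ _ (nz a ha) (nz b hb) (fun p => by
      rcases hab p with h | h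
      · left
        show a p * _ = 0
        rw [h, zero_mul]
      · right
        show b p * _ = 0
        rw [h, zero_mul]) (trans a hra) (trans b hrb)
  refine ⟨fun p => a' p / (α * p.1.rep 0 + β * p.1.rep 1 + γ * p.1.rep 2) ^ d,
    fun p => b' p / (α * p.1.rep 0 + β * p.1.rep 1 + γ * p.1.rep 2) ^ d, ?_, ?_, ?_, ?_⟩
  · intro p hp
    show a' p / _ = 0
    rw [ha' p (by show a p * _ = 0; rw [hp, zero_mul]), zero_div]
  · intro p hp
    show b' p / _ = 0
    rw [hb' p (by show b p * _ = 0; rw [hp, zero_mul]), zero_div]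
  · have h1 := rel_forms (d := d) hα (fun p : P => p.1.rep) hL' (fun p => a' p - b' p) (by
      intro k l hkl
      have h2 := hab' k l hkl
      rw [← sub_eq_zero, ← Finset.sum_sub_distrib] at h2
      rw [← h2]
      refine Finset.sum_congr rfl fun p _ => ?_
      ring)
    rw [← sub_eq_zero, ← Finset.sum_sub_distrib, ← h1]
    refine Finset.sum_congr rfl fun p _ => ?_
    refine LinearMap.ext fun F => ?_
    rw [LinearMap.sub_apply, LinearMap.smul_apply, LinearMap.smul_apply, LinearMap.smul_apply,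
      smul_eq_mul, smul_eq_mul, smul_eq_mul]
    ring
  · intro h1
    apply hne
    obtain ⟨F, hF⟩ := forms_rel (fun p : P => p.1.rep) hL'
      (fun p => a' p / (α * p.1.rep 0 + β * p.1.rep 1 + γ * p.1.rep 2) ^ d) k l hkl
    rw [h1] at hF
    rw [LinearMap.zero_apply] at hF
    rw [← hF]
    refine Finset.sum_congr rfl fun p _ => ?_
    rw [div_mul_cancel₀ _ (pow_ne_zero _ (hL' p))]

/-- The relative form of `ClaimB`: functionals on `V`, the common zeros `W`. -/
theorem relB (hB : ClaimB) {V : Type} [AddCommGroup V] [Module ℝ V] [FiniteDimensional ℝ V]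
    {I : Type} [Fintype I] [Nonempty I] (n : I → Dual ℝ V) (hne : ∀ i, n i ≠ 0)
    (hC : ∀ a b : I → ℝ, a ≠ 0 → b ≠ 0 → (∀ i, a i = 0 ∨ b i = 0) → ∑ i, a i • n i = 0 →
      ∑ i, b i • n i = 0 → ∃ a' b' : I → ℝ, (∀ i, a i = 0 → a' i = 0) ∧ (∀ i, b i = 0 → b' i = 0) ∧
        ∑ i, a' i • n i = ∑ i, b' i • n i ∧ ∑ i, a' i • n i ≠ 0)
    (W : Submodule ℝ V) (hW : ∀ x, x ∈ W ↔ ∀ i, n i x = 0) :
    ∃ f : V, f ∉ W ∧ Set.ncard {i | n i f = 0} + finrank ℝ W + 1 = finrank ℝ V ∧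
      ∀ g : V, (∀ i, n i f = 0 → n i g = 0) → ∃ c : ℝ, g - c • f ∈ W := by
  classical
  let m : I → Dual ℝ (V ⧸ W) := fun i =>
    W.liftQ (n i) (fun x hx => LinearMap.mem_ker.2 ((hW x).1 hx i))
  have hm : ∀ i x, m i (W.mkQ x) = n i x := fun i x => rfl
  have hsum : ∀ a : I → ℝ, ∀ x, (∑ i, a i • m i) (W.mkQ x) = (∑ i, a i • n i) x := by
    intro a x
    rw [LinearMap.sum_apply, LinearMap.sum_apply]
    rfl
  have hsurj := W.mkQ_surjective
  have hsum0 : ∀ a : I → ℝ, ∑ i, a i • m i = 0 ↔ ∑ i, a i • n i = 0 := by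
    intro a
    constructor
    · intro h
      refine LinearMap.ext fun x => ?_
      rw [← hsum, h]
      rfl
    · intro h
      refine LinearMap.ext fun x => ?_
      obtain ⟨y, rfl⟩ := hsurj x
      rw [hsum, h]
      rfl
  have hmne : ∀ i, m i ≠ 0 := by
    intro i h
    apply hne i
    refine LinearMap.ext fun x => ?_
    rw [← hm i x, h]
    rfl
  have hsp : ∀ f : V ⧸ W, (∀ i, m i f = 0) → f = 0 := by
    intro f hf
    obtain ⟨x, rfl⟩ := hsurj f
    have h1 : x ∈ W := (hW x).2 hf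
    exact (Submodule.Quotient.mk_eq_zero W).2 h1
  have hfr := Submodule.finrank_quotient_add_finrank W
  obtain ⟨i0⟩ := ‹Nonempty I›
  have hpos : 1 ≤ finrank ℝ (V ⧸ W) := by
    by_contra hcon
    have h0 : finrank ℝ (V ⧸ W) = 0 := by omega
    have h1 : Subsingleton (V ⧸ W) := finrank_zero_iff.1 h0
    apply hmne i0
    refine LinearMap.ext fun x => ?_
    rw [Subsingleton.elim x 0, map_zero, map_zero]
  rcases Nat.lt_or_ge 1 (finrank ℝ (V ⧸ W)) with h2 | h2
  · obtain ⟨f, hf0, hcard, huniq⟩ := hB (V ⧸ W) I m h2 hmne hsp (by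
      intro a b ha hb hab hra hrb
      obtain ⟨a', b', h3, h4, h5, h6⟩ := hC a b ha hb hab ((hsum0 a).1 hra) ((hsum0 b).1 hrb)
      refine ⟨a', b', h3, h4, ?_, fun h => h6 ((hsum0 a').1 h)⟩
      refine LinearMap.ext fun x => ?_
      obtain ⟨y, rfl⟩ := hsurj x
      rw [hsum, hsum, h5])
    obtain ⟨x, rfl⟩ := hsurj f
    refine ⟨x, fun h => hf0 ((Submodule.Quotient.mk_eq_zero W).2 h), ?_, fun g hg => ?_⟩
    · have h3 : Set.ncard {i | n i x = 0} = finrank ℝ (V ⧸ W) - 1 := hcard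
      omega
    · obtain ⟨c, hc⟩ := huniq (W.mkQ g) hg
      refine ⟨c, ?_⟩
      rw [← Submodule.Quotient.mk_eq_zero W]
      show W.mkQ (g - c • x) = 0
      rw [map_sub, map_smul, hc, sub_self]
  · have h1 : finrank ℝ (V ⧸ W) = 1 := by omega
    obtain ⟨x, hx⟩ : ∃ x : V, W.mkQ x ≠ 0 := by
      by_contra hcon
      push Not at hcon
      apply hmne i0
      refine LinearMap.ext fun y => ?_
      obtain ⟨z, rfl⟩ := hsurj y
      rw [hcon z, map_zero, map_zero]
    have hall : ∀ y : V ⧸ W, ∃ c : ℝ, y = c • W.mkQ x := fun y => by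
      obtain ⟨c, hc⟩ := (finrank_eq_one_iff_of_nonzero' (W.mkQ x) hx).1 h1 y
      exact ⟨c, hc.symm⟩
    have hnz : ∀ i, n i x ≠ 0 := by
      intro i h
      apply hmne i
      refine LinearMap.ext fun y => ?_
      obtain ⟨c, rfl⟩ := hall y
      rw [map_smul, hm, h, smul_zero]
      rfl
    refine ⟨x, fun h => hx ((Submodule.Quotient.mk_eq_zero W).2 h), ?_, fun g _ => ?_⟩
    · have h3 : {i | n i x = 0} = ∅ := by
        ext i
        simp [hnz i]
      rw [h3, Set.ncard_empty]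
      omega
    · obtain ⟨c, hc⟩ := hall (W.mkQ g)
      refine ⟨c, ?_⟩
      rw [← Submodule.Quotient.mk_eq_zero W]
      show W.mkQ (g - c • x) = 0
      rw [map_sub, map_smul, hc, sub_self]

/-- a form takes the value `c ^ d * f(v)` at `c • v` -/
theorem eval_smul_hom {d : ℕ} {f : MvPolynomial (Fin 3) ℝ} (hf : f.IsHomogeneous d) (c : ℝ)
    (v : Fin 3 → ℝ) : eval (c • v) f = c ^ d * eval v f := by
  rw [eval_eq', eval_eq', Finset.mul_sum]
  refine Finset.sum_congr rfl fun s hs => ?_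
  have h1 := deg_of_mem (d := d) ⟨f, hf⟩ hs
  simp only [Fin.prod_univ_three, Pi.smul_apply, smul_eq_mul, mul_pow]
  rw [← h1, pow_add, pow_add]
  ring

end WW
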